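import Mathlib
import Pool.Agent.Helper4K9.AP.Unit

/-!
MP_64ff02_ag, Q1: the four properties for curves from the punctured disc given by iterated linear
differential equations with small coefficients.
-/

set_option autoImplicit false

namespace Pool.Agent.Results.MP_64ff02_ag.AdmissiblePicard

open MvPolynomial Metric Set Filter Topology FF
open Pool.Agent.W602.GT Pool.Agent.TH143 Pool.Agent.TH143.GT Pool.Agent.W603.BP
  Pool.Agent.W603.BPR Pool.Agent.W603.GR Pool.Agent.W603.PV Pool.Agent.Helper4K9.IP
  Pool.Agent.Helper4K9.AP

/-- Let `X` be the quasi-projective variety with the homogeneous ideal `p` and the boundary `Q = 0`,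
`q = deg Q`. Call a holomorphic map `f` from the punctured disc to `X` admissible if, near the
origin, the regular functions `x ^ α / Q` (the homogeneous coordinates up to a factor, if `q = 0`)
along `f` belong to the smallest class of meromorphic functions which contains the quotients of the
holomorphic functions that are small with respect to `f` (their Nevanlinna proximity function at
the origin is `o (T (r, f)) + O (log r)` for `r` outside a set of finite measure) and is closed
under sums, products and meromorphic solutions of linear systems `y' = A y` with coefficients in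
the class.

(1) If the subvarieties of positive dimension of `X` which are not contained in `G = 0` are of log
general type, then the admissible maps from the punctured disc to `X` extend unless the image is
contained in `G = 0`, and the entire curves in `X` which are admissible at infinity are contained in
`G = 0`.

(2) If `X` is of log general type, then the admissible maps from the punctured disc extend if they
are Zariski-dense, and the entire curves which are admissible at infinity are not Zariski-dense.

(3) A map from the punctured disc to `X` is admissible if the coefficients at the first step are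
meromorphic at the origin, and it is admissible if it avoids the coordinate hyperplanes. -/
theorem result {n : ℕ} (p : Ideal (MvPolynomial (Fin (n + 1)) ℂ)) (hp : IsHomog p)
    (Q : MvPolynomial (Fin (n + 1)) ℂ) (q : ℕ) (hQ : Q.IsHomogeneous q) :
    (∀ G : MvPolynomial (Fin (n + 1)) ℂ, IsForm G → SubLogGT p Q q G →
      (∀ f, PCurve p Q f → Admissible Q q f → (∃ z ∈ ball (0 : ℂ) 1 \ {0}, eval (f z) G ≠ 0) →
        Extends f) ∧
      ∀ f, EntireCurve p Q f → Admissible Q q (fun w => f w⁻¹) → ∀ z, eval (f z) G = 0) ∧
    (∀ (K : Type) [Field K] [Algebra ℂ K] (w : ℕ) (y : Fin (n + 1) → K), FunField p Q K w y →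
      LogGeneralType ℂ K w (OffQ Q q y) →
      (∀ f, PCurve p Q f → Admissible Q q f → ZDense p f (ball 0 1 \ {0}) → Extends f) ∧
      ∀ f, EntireCurve p Q f → Admissible Q q (fun w => f w⁻¹) → ¬ ZDense p f univ) ∧
    (∀ f, PCurve p Q f → NearZero Q q f → Admissible Q q f) ∧
    ∀ f, PCurve p Q f → (∀ z ∈ ball (0 : ℂ) 1 \ {0}, ∀ j, f z j ≠ 0) → Admissible Q q f := by
  have hset : ∀ z : ℂ, z ∈ ball (0 : ℂ) 1 \ {0} ↔ z ∈ PB 1 := fun z => mem_disc
  refine ⟨fun G hG h => ⟨fun f hf hl hfG => Helper4K9.AP.strong_picard hp hQ hG h hf hl hfG,
    fun f hf hl z => Helper4K9.AP.strong_brody hp hQ hG h hf hl z⟩, ?_,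
    fun f _ hn => admissible_of_nearZero hn, fun f hf hu =>
      admissible_of_units hQ hf.an (fun z hz => (hf.2 z ((hset z).2 hz)).2.2)
        fun z hz => hu z ((hset z).2 hz)⟩
  intro K _ _ w y hy h
  refine ⟨fun f hf hl hd => ?_, fun f hf hl hd => ?_⟩
  · have hd' : ZDense p f (PB 1) := fun H hH h => hd H hH fun z hz => h z ((hset z).1 hz)
    have hgp : GenPt f (PB 1) K w y := hy.genPt
      (fun z hz => (hf.2 z ((hset z).2 hz)).2.1) hd'
    exact admissible_alt hQ hf.an (fun w hw => (hf.2 w ((hset w).2 hw)).1)
      (fun z hz => (hf.2 z ((hset z).2 hz)).2.2) hl hgp h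
  · obtain ⟨hdf, hne, hfQ, hnc⟩ := ent_data hf
    have hgp : GenPt f univ K w y := hy.genPt (fun z _ => (hf.2.1 z).2.1) hd
    obtain ⟨a1, a2, a3⟩ := inv_facts hdf hne hfQ
    exact rational_alt hQ hdf hne hfQ hnc (admissible_alt hQ a1 a2 a3 hl (hgp.inv hdf) h) hgp h

end Pool.Agent.Results.MP_64ff02_ag.AdmissiblePicard
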