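import Pool.Agent.Helper1K9.PN.Expl
import Pool.Agent.Helper1K9.PN.Crit

/-!
MP_64ff02_ag, Q1: the four properties for the quasi-projective varieties over abelian covers of
`ℙⁿ` which are branched over hyperplanes.

`Pool/Agent/Helper1K9/PN/Defs.lean` defines the covers `X` (`Cover`, `Cover.Pt`) and the condition
`Cover.Big` on the multiplicities. In `Pool/Agent/Helper1K9/PN/Crit.lean` it is proved that it holds
for the cyclic cover `y ^ m = ℓ_1 ⋯ ℓ_q`, where `m` divides `q` and the `q` hyperplanes are in
general position, if `n (n + 1) ≤ m` and `4 n < q` (`cyclic_general`); more generally, if no point is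
on `N + 1` of the `q` hyperplanes, for the complement of the preimages of `q - s` of the hyperplanes
if `(2 N + 1 - l) (2 m + l s) < 2 m q` for `1 ≤ l ≤ n` (`cyclic_big`); `big_of` is a criterion for
all covers.

The function-field language of the starting repository is used for the varieties: `Pts U F` is the
cone over the quasi-projective variety `V = {F = 0, x_j ≠ 0 for all j in U}`; `SubVarU U F L w x`
means that `L` is the function field, and `x` the generic point, of a closed subvariety of dimension
`w` of it, and `OffU U x` are the places of `L` whose centre is not on `V`.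
-/

set_option autoImplicit false

namespace Pool.Agent.Results.MP_64ff02_ag.HyperplaneCovers

open Pool.Agent.W602.GT Pool.Agent.H159R3.GGLLog Pool.Agent.W603.BP Pool.Agent.Y190.AN
  Pool.Agent.Helper1K9.PK Pool.Agent.Helper1K9.PN Metric Topology

/-- Let `X` be a cover `y_k ^ (m k) = ∏_i ℓ_i ^ (e k i)` of `ℙⁿ` which is branched over the
hyperplanes `ℓ_i = 0`, for `q` linear forms `ℓ_i = ∑_j c i j g_j`, without the points over some of
these hyperplanes. Suppose that no point of `ℙⁿ` is on `N + 1` of the hyperplanes, and that, for some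
weights `p i / Q`, all curve germs on `X` which meet a hyperplane, with the intersection
multiplicities `v i`, satisfy `∑ (p i / Q) v i ≥ 1`, and that
`q > (2 N + 1 - l) (1 + (l / 2) ∑ (p i / Q))` for `1 ≤ l ≤ n` (`X.Big`).

(1) Let `V` be a quasi-projective variety of positive dimension, with the generic point `x` and the
function field `L`, and let `(g, y)` be a rational map from `V` to `X`, which is generically finite
onto its image, such that the image is not contained in one of the hyperplanes and such that the
functions `g_j / ℓ_i(g)` are regular on `V` if the hyperplane `ℓ_i = 0` is removed from `X`. (For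
instance, `V` is `X` or a closed subvariety of `X`.) Then `V` is of log general type, and there is a
proper closed subset `R = 0` of `V` such that

* all holomorphic maps from the punctured disc to `V` whose image is not contained in `R = 0` extend
  to the disc (`V` is pseudo Picard hyperbolic);
* all nonconstant entire curves in `V` are contained in `R = 0` (`V` is pseudo Brody hyperbolic);
* all closed subvarieties of positive dimension of `V` which are not contained in `R = 0` are of log
  general type (`V` is strongly of log general type).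

(2) All holomorphic maps from the punctured disc to `X` whose image is not contained in one of the
hyperplanes extend to the disc: if the meromorphic functions `g_j`, `y_k` on the punctured disc
satisfy the equations, no `ℓ_i(g)` vanishes identically, and the map `[g_0 : ... : g_n]` to `ℙⁿ`
omits the hyperplanes which are removed, then the quotients `g_j / ℓ_i(g)` are meromorphic at the
centre of the disc.

(3) If `g_j`, `y_k` are such meromorphic functions on the complex plane, then the quotients
`g_j / ℓ_i(g)` are constant: all entire curves in `X` whose image is not contained in one of the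
hyperplanes are constant. -/
theorem result {n q r : ℕ} (X : Cover n q r) (hX : X.Big) :
    (∀ (M : ℕ) (U : Set (Fin (M + 1))) (ι : Type) (F : ι → MvPolynomial (Fin (M + 1)) ℂ)
      (L : Type) [Field L] [Algebra ℂ L] (w : ℕ) (x : Fin (M + 1) → L), 1 ≤ w →
      SubVarU U F L w x →
      (∀ G : MvPolynomial (Fin (M + 1)) ℂ, IsForm G →
        (val x G = 0 ↔ ∀ z ∈ Pts U F, MvPolynomial.eval z G = 0)) →
      ∀ (g : Fin (n + 1) → L) (y : Fin r → L), X.Pt g y →
        Algebra.IsAlgebraic (IntermediateField.adjoin ℂ
          (Set.range fun a : Fin (n + 1) × Fin (n + 1) => g a.1 / g a.2)) L →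
        (∀ i ∈ X.bd, ∀ j, RegularOn U x (g j / X.lin i g)) →
        LogGeneralType ℂ L w (OffU U x) ∧
          ∃ R : MvPolynomial (Fin (M + 1)) ℂ, IsForm R ∧
            (∃ z ∈ Pts U F, MvPolynomial.eval z R ≠ 0) ∧
            (∀ f, PCurve U F f → (∃ z ∈ ball (0 : ℂ) 1 \ {0}, MvPolynomial.eval (f z) R ≠ 0) →
              Extends f) ∧
            (∀ f, EntireCurve U F f → ∀ z, MvPolynomial.eval (f z) R = 0) ∧
            ∀ (E : Type) [Field E] [Algebra ℂ E] (w' : ℕ) (z : Fin (M + 1) → E), 1 ≤ w' →
              SubVarU U F E w' z → val z R ≠ 0 → LogGeneralType ℂ E w' (OffU U z)) ∧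
    (∀ (g : Fin (n + 1) → ℂ → ℂ) (y : Fin r → ℂ → ℂ),
      (∀ j, MeromorphicOn (g j) (ball 0 1 \ {0})) → (∀ k, MeromorphicOn (y k) (ball 0 1 \ {0})) →
      (∀ z ∈ ball (0 : ℂ) 1 \ {0}, ∀ᶠ w in 𝓝[≠] z, ∀ k,
        y k w ^ X.m k = ∏ i, (∑ j, X.c i j * g j w) ^ X.e k i) →
      (∀ i, ∃ z ∈ ball (0 : ℂ) 1 \ {0}, ∃ᶠ w in 𝓝[≠] z, ∑ j, X.c i j * g j w ≠ 0) →
      (∀ i ∈ X.bd, ∀ j, ∀ z ∈ ball (0 : ℂ) 1 \ {0},
        meromorphicOrderAt (fun w => ∑ j, X.c i j * g j w) z ≤ meromorphicOrderAt (g j) z) →
      ∀ i j, ∃ R : ℂ → ℂ, MeromorphicAt R 0 ∧ ∀ z ∈ ball (0 : ℂ) 1 \ {0}, ∀ᶠ w in 𝓝[≠] z,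
        g j w = R w * ∑ j, X.c i j * g j w) ∧
    (∀ (g : Fin (n + 1) → ℂ → ℂ) (y : Fin r → ℂ → ℂ),
      (∀ j z, MeromorphicAt (g j) z) → (∀ k z, MeromorphicAt (y k) z) →
      (∀ z, ∀ᶠ w in 𝓝[≠] z, ∀ k,
        y k w ^ X.m k = ∏ i, (∑ j, X.c i j * g j w) ^ X.e k i) →
      (∀ i, ∃ z, ∃ᶠ w in 𝓝[≠] z, ∑ j, X.c i j * g j w ≠ 0) →
      (∀ i ∈ X.bd, ∀ j, ∀ z,
        meromorphicOrderAt (fun w => ∑ j, X.c i j * g j w) z ≤ meromorphicOrderAt (g j) z) →
      ∀ i j, ∃ a : ℂ, ∀ z, ∀ᶠ w in 𝓝[≠] z, g j w = a * ∑ j, X.c i j * g j w) := by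
  refine ⟨?_, ?_, ?_⟩
  · intro M U ι F L _ _ w x hw hx hgen g y hpt halg hbd
    exact four X hX hw hx hgen hpt halg hbd
  · intro g y hg hy heq hoff hbd i j
    exact discs X hX hg hy heq hoff hbd i j
  · intro g y hg hy heq hoff hbd i j
    exact plane X hX hg hy heq hoff hbd i j

end Pool.Agent.Results.MP_64ff02_ag.HyperplaneCovers
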