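import Pool.Agent.Helper11K9.KR.Prod

/-!
# Images of products of many curves: general type or a covering by curves of genus at most one

Let `V = C_1 × ... × C_n` be a product of smooth projective curves over the complex numbers of genera
`g_i ≥ 2` (`n` is arbitrary), and let `V ⇢ W` be a dominant rational map of degree `r` to a smooth
projective variety `W` of dimension `n`. Suppose that every curve descends or generates: the
projection `V → C_i` factors through `W`, or it is injective on the general fibre of `V ⇢ W`. This
holds if `V ⇢ W` does not factor through a third variety, for example if `r` is prime. Let `S` be the
set of the curves which do not descend, and assume that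

* `S` has at most one element, or
* there is a number `c ≥ 3` such that at least two curves in `S`, one of them not hyperelliptic, have
  genus at least `c`, and `2 r < ∑_{i ∈ S} (min (g_i, c) - 1)`.

(For example, `2 r < |S| (g - 1)` is sufficient if all curves in `S` have genus at least `g ≥ 3`
and one of them is not hyperelliptic and `|S| ≥ 2`.) So the degree may be larger than all the genera if
many curves do not descend. Nothing else is assumed about the map (it need not be a quotient by a
group, its ramification is arbitrary) or about `W`, which may have no holomorphic `1`-forms.

Then `W` is of general type, or all curves but one descend (so that `W` is fibred by curves over the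
product of `n - 1` of the curves) and `W` is covered by curves of genus at most one.

For the Green-Griffiths-Lang conjecture this means: if `W` is not of general type then it is covered by
rational or elliptic curves, so that it is neither pseudo Picard hyperbolic nor pseudo Brody
hyperbolic nor strongly of general type. In other words, each of the properties (ii), (iii), (iv)
implies (i) for `W`.

Proof. Let `K ⊇ L` be the function fields of `V` and `W`, and `F_i` the one of `C_i`. The canonical
forms on `W` which we use are the traces of the products of regular differentials of the curves.

(1) Let `U` be a nonempty finite set of points of `∏_{i ∈ S} C_i` with distinct coordinates: the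
projections to the curves are injective on it. If there is a linear relation with nonzero
coefficients between the values at the points of `U` of the products of regular differentials, then
`U` has at least `∑_{i ∈ S} (min (g_i, c) - 1)` points. Proof: by Clifford's theorem the regular
differentials of `C_i` have rank at least `min (g_i, x / 2)` at `x` points; a differential which
vanishes at one point less than the rank gives a relation between fewer points for the other
curves. In the end two curves remain, the ranks of which add up to more than the number of points, by
the strict form of Clifford's inequality; but they are orthogonal.

(2) So not all the traces vanish if `|S| ≥ 2`. Let `N` be the field of their ratios. If all the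
`F_i`, `i ∈ S`, are transcendental over `N` then consider the `r` embeddings of `K` over `L`
together with their conjugates by an automorphism over `N` which moves everything transcendental: they
satisfy a relation as in (1) with `2 r` points, a contradiction.

(3) So there is an `F_i`, `i ∈ S`, which is algebraic over `N`; it generates `K` over `L`. Hence the
ratio of an `m`-canonical form of `V` and one of `W` is algebraic over the field of the ratios of
the pluricanonical forms of `W` (traces of powers of the ratio, multiplied by powers of a
pluricanonical form of `W` which vanishes at the poles and the branch divisor of a generator; there
is no ramification elsewhere), and `κ (W) = κ (V) = n`.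

(4) If `|S| ≤ 1` and `W` is not of general type then the same argument for the field `M` generated by
`L` and the other curves shows that the traces from `K` to `M` of the regular differentials of the
remaining curve are proportional over the function field of the other curves. So the fibres of `W`
over the product of the other curves have genus at most one.

Some condition on `r` is needed: if `C` is a curve of genus two, `W` its Jacobian, and `C_1 → C`,
`C_2 → C` are coverings of prime degrees then `C_1 × C_2` dominates `W`, which may be simple. (This
example is not formalised, and `C_1`, `C_2` neither descend nor generate.)

The function-field language of the starting repository is used. A canonical form (`IsPluri 1`) on a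
variety of dimension `n` is a function of `n` rational vector fields; it is regular at the prime
divisor `P` (`Place`, `Divisorial`, `RegAt`) if its value on vector fields which are regular at `P`
is regular at `P`. `KodGe ℂ L n (fun _ => False) n` says that `κ ≥ n` for the smooth projective
varieties of dimension `n` with the function field `L`.
-/

set_option autoImplicit false
set_option linter.overlappingInstances false

open FF Pool.Agent.W602.GT
open Pool.Agent.Helper11K9.PR (regForms)

namespace Pool.Agent.Results.MP_64ff02_ag.ImagesOfManyCurves

/-- `K` is the function field of a product of `n` curves over `ℂ`, and the `F i` are the function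
fields of the curves (embedded in `K` by the projections): they are finitely generated of
transcendence degree one, they generate `K`, and the transcendence degree of `K` is `n`. -/
structure IsProductOfCurves {K : Type} [Field K] [Algebra ℂ K] {n : ℕ}
    (F : Fin n → IntermediateField ℂ K) : Prop where
  curve : ∀ i, IsFF ℂ (F i)
  gen : ⨆ i, F i = ⊤
  dim : Algebra.trdeg ℂ K = n

/-- The gonality of a curve with the function field `F`: the least degree of a nonconstant rational
function `t`, that is, of `F` over `ℂ(t)`. -/
noncomputable def gonality (F : Type) [Field F] [Algebra ℂ F] : ℕ :=
  sInf {d : ℕ | ∃ t : F, Transcendental ℂ t ∧
    d = Module.finrank (IntermediateField.adjoin ℂ {t}) F}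

/-- The genus of a curve over `k` with the function field `F`: the dimension of the space
`regForms k F` of regular differential forms. -/
noncomputable def genus (k F : Type) [Field k] [Field F] [Algebra k F] : ℕ :=
  Module.finrank k (regForms k F)

/-- The definition of `regForms`: a differential form `ω` on a curve with the function field `F`, an
`F`-linear map from the rational vector fields (the derivations of `F` over `k`) to `F`, is regular if
`ω δ` has no pole at `P` for all points (places) `P` and all vector fields `δ` regular at `P`. -/
theorem mem_regForms {k F : Type} [Field k] [Field F] [Algebra k F]
    {ω : Derivation k F F →ₗ[F] F} : ω ∈ regForms k F ↔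
      ∀ (P : Place k F) (δ : Derivation k F F), (∀ f, P.Reg f → P.Reg (δ f)) → P.Reg (ω δ) := Iff.rfl

/-- Every curve descends (its function field `F i` is contained in `L`) or generates (`F i` generates
`K` over `L`). -/
def DescendsOrGenerates {K : Type} [Field K] [Algebra ℂ K] {n : ℕ}
    (F : Fin n → IntermediateField ℂ K) (L : IntermediateField ℂ K) : Prop :=
  ∀ i, F i ≤ L ∨ IntermediateField.adjoin L (F i : Set K) = ⊤

open Classical in
/-- The set of the curves which do not descend. -/
noncomputable def nonDescending {K : Type} [Field K] [Algebra ℂ K] {n : ℕ}
    (F : Fin n → IntermediateField ℂ K) (L : IntermediateField ℂ K) : Finset (Fin n) :=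
  Finset.univ.filter fun i => ¬ F i ≤ L

/-- The variety of dimension `n` with the function field `L` is covered by curves of genus at most
one: `L` embeds in the function field `Φ` of a curve of genus at most one over an algebraically
closed field `Λ` of transcendence degree `n - 1` over `ℂ`. -/
def CoveredByLowGenus (L : Type) [Field L] [Algebra ℂ L] (n : ℕ) : Prop :=
  ∃ (Λ Φ : Type) (_ : Field Λ) (_ : Field Φ) (_ : Algebra ℂ Λ) (_ : Algebra ℂ Φ)
    (_ : Algebra Λ Φ) (_ : IsScalarTower ℂ Λ Φ), IsAlgClosed Λ ∧ Algebra.trdeg ℂ Λ + 1 = n ∧
    IsFF Λ Φ ∧ genus Λ Φ ≤ 1 ∧ Nonempty (L →ₐ[ℂ] Φ)

/-- The smooth projective varieties of dimension `n` with the function field `L` are of general type: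
their Kodaira dimension is at least `n`. -/
def GeneralType (L : Type) [Field L] [Algebra ℂ L] (n : ℕ) : Prop :=
  KodGe ℂ L n (fun _ => False) n

/-- **Images of products of many curves.** Let `K` be the function field of a product of `n` curves
with the function fields `F i`, of genera at least two, and let `L` be a subfield of finite index (the
function field of a smooth projective variety `W` dominated by the product, with degree `[K : L]`)
such that every curve descends or generates. Assume that at most one curve does not descend, or that
two curves `p ≠ q` which do not descend have genus at least `c ≥ 3`, that `q` has gonality at least
three, and that `2 [K : L]` is less than the sum of the numbers `min (g_i, c) - 1` for the curves which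
do not descend. Then `W` is of general type, or it is covered by curves of genus at most one and all
curves but one descend. -/
theorem result {n : ℕ} {K : Type} [Field K] [Algebra ℂ K] (F : Fin n → IntermediateField ℂ K)
    (hF : IsProductOfCurves F) (L : IntermediateField ℂ K) [FiniteDimensional L K]
    (hmap : DescendsOrGenerates F L) (hgenus : ∀ i, 2 ≤ genus ℂ (F i))
    (hmany : (nonDescending F L).card ≤ 1 ∨ ∃ c : ℕ, 3 ≤ c ∧
      (∃ p ∈ nonDescending F L, ∃ q ∈ nonDescending F L, p ≠ q ∧ c ≤ genus ℂ (F p) ∧
        c ≤ genus ℂ (F q) ∧ 3 ≤ gonality (F q)) ∧
      2 * Module.finrank L K < ∑ i ∈ nonDescending F L, (min (genus ℂ (F i)) c - 1)) :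
    GeneralType L n ∨ (CoveredByLowGenus L n ∧ ∃ p, ∀ j, j ≠ p → F j ≤ L) := by
  have hcurve := hF.curve
  refine Pool.Agent.Helper11K9.KR.prod F hF.gen hF.dim L hmap hgenus (S := nonDescending F L)
    (fun i => by simp [nonDescending]) ?_
  rcases hmany with h | ⟨c, hc, ⟨p, hp, q, hq, hpq, hgp, hgq, hγ⟩, hr⟩
  · exact Or.inl h
  · exact Or.inr ⟨c, p, q, hc, hpq, hp, hq, hgp, hgq,
      fun t ht => hγ.trans (Pool.Agent.Helper11K9.PR.gon_le ht), hr⟩

end Pool.Agent.Results.MP_64ff02_ag.ImagesOfManyCurves
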