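import Mathlib
import Pool.Agent.Helper4K9.MP.Infl

/-!
MP_64ff02_ag, Q1: the four properties for curves with few inflection points.
-/

set_option autoImplicit false

namespace Pool.Agent.Results.MP_64ff02_ag.SmallRamification

open MvPolynomial Metric Set Filter Topology FF
open Pool.Agent.W602.GT Pool.Agent.TH143 Pool.Agent.TH143.GT Pool.Agent.W603.BP
  Pool.Agent.W603.BPR Pool.Agent.W603.GR Pool.Agent.W603.PV Pool.Agent.Helper4K9.IP
  Pool.Agent.Helper4K9.AP Pool.Agent.Helper4K9.MP
open Pool.Agent.Y377.IL (GmCurve)

/-- Let `X` be the quasi-projective variety with the homogeneous ideal `p` and the boundary `Q = 0`,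
`q = deg Q`. Let `f` be the vector of homogeneous coordinates of a holomorphic map from the punctured
disc to `X` (or of an entire curve in `X`), and let `n + 1` be the dimension of the linear span of
its image. We say that the map has few inflection points near the origin (at infinity) if there the
points `z` at which `f z, f' z, ..., f ^ (n) z` are linearly dependent are among the zeros of a
holomorphic function whose counting function is `o (T (r, f)) + O (log r)` for `r` outside a set of
finite measure; the zeros can be counted without multiplicities.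

(1) If the form `G` vanishes on the images of all nonconstant morphisms from the multiplicative group
to `X`, then the maps from the punctured disc to `X` with few inflection points extend unless the
image is contained in `G = 0`, and the entire curves in `X` with few inflection points are contained
in `G = 0`.

(2) If the subvarieties of positive dimension of `X` which are not contained in `G = 0` are of log
general type, then the maps from the punctured disc to `X` with few inflection points extend unless
the image is contained in `G = 0`, and the entire curves in `X` with few inflection points are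
contained in `G = 0`.

(3) If `X` is of log general type, then the Zariski-dense maps from the punctured disc to `X` with
few inflection points extend, and the entire curves in `X` with few inflection points are not
Zariski-dense. -/
theorem result {n : ℕ} (p : Ideal (MvPolynomial (Fin (n + 1)) ℂ)) (hp : IsHomog p)
    (Q : MvPolynomial (Fin (n + 1)) ℂ) (q : ℕ) (hQ : Q.IsHomogeneous q) :
    (∀ G : MvPolynomial (Fin (n + 1)) ℂ, IsForm G →
      (∀ P : Fin (n + 1) → Polynomial ℂ, GmCurve p Q P → ∀ t, t ≠ 0 →
        eval (fun j => (P j).eval t) G = 0) →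
      (∀ f, PCurve p Q f → FewInflections f → (∃ z ∈ ball (0 : ℂ) 1 \ {0}, eval (f z) G ≠ 0) →
        Extends f) ∧
      ∀ f, EntireCurve p Q f → FewInflectionsE f → ∀ z, eval (f z) G = 0) ∧
    (∀ G : MvPolynomial (Fin (n + 1)) ℂ, IsForm G → SubLogGT p Q q G →
      (∀ f, PCurve p Q f → FewInflections f → (∃ z ∈ ball (0 : ℂ) 1 \ {0}, eval (f z) G ≠ 0) →
        Extends f) ∧
      ∀ f, EntireCurve p Q f → FewInflectionsE f → ∀ z, eval (f z) G = 0) ∧
    ∀ (K : Type) [Field K] [Algebra ℂ K] (w : ℕ) (y : Fin (n + 1) → K), FunField p Q K w y →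
      LogGeneralType ℂ K w (OffQ Q q y) →
      (∀ f, PCurve p Q f → FewInflections f → ZDense p f (ball 0 1 \ {0}) → Extends f) ∧
      ∀ f, EntireCurve p Q f → FewInflectionsE f → ¬ ZDense p f univ := by
  have hset : ∀ z : ℂ, z ∈ ball (0 : ℂ) 1 \ {0} ↔ z ∈ PB 1 := fun z => mem_disc
  have hadm : ∀ f, PCurve p Q f → FewInflections f → MerAdm Q q f := fun f hf hl =>
    merAdm_of_few hQ hf.an (fun w hw => (hf.2 w ((hset w).2 hw)).1)
      (fun z hz => (hf.2 z ((hset z).2 hz)).2.2) hl
  have hadmE : ∀ f, EntireCurve p Q f → FewInflectionsE f → MerAdm Q q (fun w => f w⁻¹) := by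
    intro f hf hl
    obtain ⟨hd, hne, hfQ, hnc⟩ := ent_data hf
    obtain ⟨a1, a2, a3⟩ := inv_facts hd hne hfQ
    exact merAdm_of_few hQ a1 a2 a3 (few_of_entire hd hl)
  refine ⟨fun G hG hGm => ⟨fun f hf hl hfG => ?_, fun f hf hl z => ?_⟩,
    fun G hG h => ⟨fun f hf hl hfG => Helper4K9.MP.strong_picard hp hQ hG h hf (hadm f hf hl) hfG,
      fun f hf hl z => Helper4K9.MP.strong_brody hp hQ hG h hf (hadmE f hf hl) z⟩, ?_⟩
  · rcases merAdm_fam hQ hf.an (fun w hw => (hf.2 w ((hset w).2 hw)).1)
      (fun z hz => (hf.2 z ((hset z).2 hz)).2.2) (hadm f hf hl) with h | h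
    · exact h
    · exfalso
      obtain ⟨z, hz, hzG⟩ := hfG
      exact hzG (h.gm (p := p) (fun z hz => (hf.2 z ((hset z).2 hz)).2.1) hG hGm z ((hset z).1 hz))
  · exact (merAdm_fam_ent hQ hf (hadmE f hf hl)).gm (p := p) (fun z _ => (hf.2.1 z).2.1) hG hGm z
      (mem_univ z)
  · intro K _ _ w y hy h
    refine ⟨fun f hf hl hd => ?_, fun f hf hl hd => ?_⟩
    · have hd' : ZDense p f (PB 1) := fun H hH h => hd H hH fun z hz => h z ((hset z).1 hz)
      have hgp : GenPt f (PB 1) K w y := hy.genPt
        (fun z hz => (hf.2 z ((hset z).2 hz)).2.1) hd'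
      rcases merAdm_fam hQ hf.an (fun w hw => (hf.2 w ((hset w).2 hw)).1)
        (fun z hz => (hf.2 z ((hset z).2 hz)).2.2) (hadm f hf hl) with h1 | h1
      · exact h1
      · exact absurd h (h1.not_lgt hQ hgp)
    · have hgp : GenPt f univ K w y := hy.genPt (fun z _ => (hf.2.1 z).2.1) hd
      exact (merAdm_fam_ent hQ hf (hadmE f hf hl)).not_lgt hQ hgp h

end Pool.Agent.Results.MP_64ff02_ag.SmallRamification
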